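import Pool.Agent.Helper72.UGE.Transfer

/-!
# Project UG, constants independent of the modulus: the transfer between the scales

As `UGE.transfer`, with a constant `δ₁` that does not depend on the modulus `q` (the numbers of exceptions are compared with `X / q`). The
hypothesis is `UGD.nogap` in the same form.
-/

set_option autoImplicit false

namespace UGU66

open Finset MRP UGD UGA UGE

/-- **The transfer**, uniform in the modulus. -/
theorem transfer_of (d : ℕ) (hno : ∃ D : ℝ, 0 < D ∧ ∀ q : ℕ, 0 < q →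
    ∀ (h : Fin d → ℕ) (H : ℕ), (∀ i, h i < H) → ∃ P₀ : ℕ, ∀ P : ℕ, P₀ ≤ P → ∃ M₀ : ℕ, ∀ M : ℕ, M₀ ≤ M →
      ∀ (ρ : ℕ → ℕ) (τ : ℕ → ZMod 2), (∀ r, ρ r < q) →
        D * (dyP P).card * ((M : ℝ) / q) < ∑ p ∈ dyP P, (((Icc 1 M).filter (fun n => n % q = ρ (p % q) ∧
          (∑ j, gg (n + p * h j)) + gg (n + p * H) ≠ τ (p % q))).card : ℝ)) :
    ∃ δ₁ : ℝ, 0 < δ₁ ∧ ∀ (q : ℕ) [NeZero q],
    ∀ (h : Fin d → ℕ) (H : ℕ), (∀ i, h i < H) → ∃ P₀ : ℕ, ∀ P : ℕ, P₀ ≤ P → ∃ X₀ : ℕ, ∀ X : ℕ, X₀ ≤ X →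
      ∀ r < q, ∀ t : ZMod 2, (ex h H q r t (X / P) : ℝ) * P ≤ δ₁ * ((X : ℝ) / q) →
        δ₁ * ((X : ℝ) / q) < QAG (Phi h H q r) X P (cc q) := by
  classical
  obtain ⟨D, hD, hno⟩ := hno
  refine ⟨D / 8, by positivity, fun q _ h H hH => ?_⟩
  have hq0 : 0 < q := NeZero.pos q
  have hqR : (0 : ℝ) < q := by exact_mod_cast hq0
  obtain ⟨P₁, hP₁⟩ := hno q hq0 h H hH
  refine ⟨max P₁ (max q 1), fun P hP => ?_⟩
  have hPP : P₁ ≤ P := le_trans (le_max_left _ _) hP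
  have hPq : q ≤ P := le_trans (le_trans (le_max_left _ _) (le_max_right _ _)) hP
  have hP1 : 1 ≤ P := le_trans (le_trans (le_max_right _ _) (le_max_right _ _)) hP
  obtain ⟨M₀, hM₀⟩ := hP₁ P hPP
  obtain ⟨M₁, hM₁⟩ := exists_nat_gt (8 * P * q / D)
  refine ⟨max M₀ M₁, fun X hX r hr t hex => ?_⟩
  have hX0 : M₀ ≤ X := le_trans (le_max_left _ _) hX
  have hX1 : 8 * P < D * ((X : ℝ) / q) := by
    have h1 : (M₁ : ℝ) ≤ X := by exact_mod_cast le_trans (le_max_right _ _) hX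
    have h2 : 8 * P * q / D < X := hM₁.trans_le h1
    rw [div_lt_iff₀ hD] at h2
    rw [← mul_div_assoc, lt_div_iff₀ hqR]
    linarith
  have h1 := hM₀ X hX0 (fun x => (x * r) % q) (fun _ => t + ((d + 1 : ℕ) : ZMod 2))
    (fun _ => Nat.mod_lt _ hq0)
  set b : ℕ → ℝ := fun p => (((Icc 1 X).filter (fun n => n % q = (p % q * r) % q ∧
      (∑ j, gg (n + p * h j)) + gg (n + p * H) ≠ t + ((d + 1 : ℕ) : ZMod 2))).card : ℝ) with hb
  have h1' : D * (dyP P).card * ((X : ℝ) / q) < ∑ p ∈ dyP P, b p := h1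
  set N : ℝ := ((dyP P).card : ℝ) with hN
  have hNpos : 0 < N := by
    rcases Nat.eq_zero_or_pos (dyP P).card with h0 | h0
    · exfalso
      have : dyP P = ∅ := Finset.card_eq_zero.1 h0
      have hN0 : N = 0 := by rw [hN, h0]; simp
      rw [hN0, this] at h1'
      simp at h1'
    · rw [hN]; exact_mod_cast h0
  have h2 : 2 * ∑ p ∈ dyP P, b p ≤ ∑ p ∈ dyP P, |∑ n ∈ Icc 1 X, gG (Phi h H q r) (cc q) p n| +
      N * (4 * P * (ex h H q r t (X / P)) + 8 * P) := by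
    calc 2 * ∑ p ∈ dyP P, b p = ∑ p ∈ dyP P, 2 * b p := Finset.mul_sum _ _ _
      _ ≤ ∑ p ∈ dyP P, (|∑ n ∈ Icc 1 X, gG (Phi h H q r) (cc q) p n| +
          (4 * P * (ex h H q r t (X / P)) + 8 * P)) := by
          refine Finset.sum_le_sum fun p hp => ?_
          have := one_prime h H q r hr t (X := X) hp hPq
          simp only [hb]
          linarith
      _ = _ := by
          rw [Finset.sum_add_distrib, Finset.sum_const, nsmul_eq_mul]
  have h3 : ∑ p ∈ dyP P, |∑ n ∈ Icc 1 X, gG (Phi h H q r) (cc q) p n| =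
      N * QAG (Phi h H q r) X P (cc q) := by
    unfold QAG
    rw [← hN]
    field_simp
  rw [h3] at h2
  set Z : ℝ := (X : ℝ) / q with hZ
  have h4 : N * (2 * D * Z) < N * (QAG (Phi h H q r) X P (cc q) +
      (4 * P * (ex h H q r t (X / P)) + 8 * P)) := by
    calc N * (2 * D * Z) = 2 * (D * N * Z) := by ring
      _ < 2 * ∑ p ∈ dyP P, b p := by linarith
      _ ≤ _ := by linarith
  have h5 := lt_of_mul_lt_mul_left h4 hNpos.le
  have hX0R : (0 : ℝ) ≤ Z := by positivity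
  nlinarith

end UGU66
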