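import Pool.Agent.Helper72.UGE.Window
import Pool.Agent.Helper66.UGU.Transfer

/-!
# Project UG, constants independent of the modulus: almost all scales of every window

As `UGE.window`, with `δ` independent of `q` (`transfer_of` in place of `UGE.transfer`).
-/

set_option autoImplicit false

namespace UGU66

open Finset MRP UGD UGA UGE
open MRA (seqP seqP_ge seqP_mono seqP_div)

/-- **The uniform gap at almost all scales**, uniform in the modulus. -/
theorem window_of (d : ℕ) (htr : ∃ δ₁ : ℝ, 0 < δ₁ ∧ ∀ (q : ℕ) [NeZero q],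
    ∀ (h : Fin d → ℕ) (H : ℕ), (∀ i, h i < H) → ∃ P₀ : ℕ, ∀ P : ℕ, P₀ ≤ P → ∃ X₀ : ℕ, ∀ X : ℕ, X₀ ≤ X →
      ∀ r < q, ∀ t : ZMod 2, (ex h H q r t (X / P) : ℝ) * P ≤ δ₁ * ((X : ℝ) / q) →
        δ₁ * ((X : ℝ) / q) < QAG (Phi h H q r) X P (cc q)) :
    ∃ δ : ℝ, 0 < δ ∧ ∀ (q : ℕ) [NeZero q],
    ∀ (h : Fin d → ℕ) (H : ℕ), (∀ i, h i < H) → ∀ r < q, ∀ t : ZMod 2, ∀ ε : ℝ, 0 < ε →
      ∃ K₀ : ℕ, ∀ N K : ℕ, K₀ ≤ K → K ≤ N →
        ∑ M ∈ Ioc (N / K) N, (if (ex h H q r t M : ℝ) ≤ δ * ((M : ℝ) / q) then 1 / (M : ℝ) else 0) ≤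
          ε * Real.log K := by
  classical
  obtain ⟨δ', hδ', htr⟩ := htr
  refine ⟨δ', hδ', fun q _ h H hH r hr t ε hε => ?_⟩
  have hq0 : 0 < q := NeZero.pos q
  have hqR : (0 : ℝ) < q := by exact_mod_cast hq0
  obtain ⟨δ, hδe⟩ : ∃ δ : ℝ, δ = δ' / q := ⟨_, rfl⟩
  have hδ : 0 < δ := by rw [hδe]; positivity
  have hδm : ∀ x : ℝ, δ' * (x / q) = δ * x := by
    intro x
    rw [hδe]
    ring
  replace htr := htr q
  simp only [hδm] at htr ⊢
  obtain ⟨P₀, hP₀⟩ := htr h H hH
  let _ : Inhabited (ZMod 2 × Fin q) := ⟨(0, ⟨0, NeZero.pos q⟩)⟩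
  obtain ⟨κ, C, hκ, hC, Pstar, hP3, hbad⟩ := UGA.bad (ZMod 2 × Fin q) (H + 1) δ hδ
  set P0 : ℕ := max P₀ Pstar with hP0
  have hP03 : 3 ≤ P0 := hP3.trans (le_max_right _ _)
  obtain ⟨I, hI⟩ := seqP_div κ hκ P0 hP03 (8 * C / ε + 1)
  obtain ⟨X0, hX0⟩ := hbad P0 (le_max_right _ _) I
  set Q : ℕ → ℕ := seqP κ P0 with hQ
  have hQge : ∀ i, P0 ≤ Q i := fun i => seqP_ge κ P0 i
  have hQ1 : ∀ i, 1 ≤ Q i := fun i => le_trans (by omega) (hQge i)
  choose X2 hX2 using fun i => hP₀ (Q i) ((le_max_left _ _).trans (hQge i))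
  set X1 : ℕ := max X0 ((range I).sup X2) with hX1
  set R : ℕ := Q I with hR
  have hQR : ∀ i ∈ range I, Q i ≤ R := fun i hi =>
    seqP_mono κ P0 (Finset.mem_range.1 hi).le
  have hR1 : 1 ≤ R := hQ1 I
  set w : ℕ → ℝ := fun i => 1 / Real.log (Q i) with hw
  have hw0 : ∀ i, 0 < w i := by
    intro i
    have h2 : (3 : ℝ) ≤ (Q i : ℝ) := by exact_mod_cast hP03.trans (hQge i)
    have : 0 < Real.log (Q i) := Real.log_pos (by linarith)
    simp only [hw]
    positivity
  set S : ℝ := ∑ i ∈ range I, w i with hS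
  have hSlow : 8 * C / ε + 1 ≤ S := hI
  have hSpos : 0 < S := by
    have : 0 < 8 * C / ε := by positivity
    linarith
  set a : ℝ := ∑ X ∈ Icc 1 X1, 1 / (X : ℝ) with ha
  have ha0 : 0 ≤ a := Finset.sum_nonneg fun X _ => by positivity
  set B : ℕ → Prop := fun M => (ex h H q r t M : ℝ) ≤ δ * M with hB
  obtain ⟨K₀, hK₀⟩ := exists_nat_gt (max (4 * (R : ℝ)) (Real.exp (4 * a / ε)))
  refine ⟨K₀, fun N K hK hKN => ?_⟩
  have hKR : (4 * (R : ℝ)) ≤ K ∧ Real.exp (4 * a / ε) ≤ K := by
    have h1 : (K₀ : ℝ) ≤ K := by exact_mod_cast hK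
    have h2 := le_max_left (4 * (R : ℝ)) (Real.exp (4 * a / ε))
    have h3 := le_max_right (4 * (R : ℝ)) (Real.exp (4 * a / ε))
    constructor <;> linarith
  have hRR : (1 : ℝ) ≤ R := by exact_mod_cast hR1
  have hKpos : (0 : ℝ) < K := by linarith [hKR.1]
  have hK1 : 1 ≤ K := by
    have : (0 : ℝ) < K := hKpos
    exact_mod_cast this
  -- the bound for each `X`
  have hX : ∀ X : ℕ, 1 ≤ X → ∑ i ∈ range I, (if B (X / Q i) then w i else 0) ≤
      C + S * (if X ≤ X1 then 1 else 0) := by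
    intro X hX
    by_cases hXX : X ≤ X1
    · rw [if_pos hXX]
      have h1 : ∑ i ∈ range I, (if B (X / Q i) then w i else 0) ≤ S := by
        rw [hS]
        refine Finset.sum_le_sum fun i _ => ?_
        split_ifs
        · exact le_rfl
        · exact (hw0 i).le
      linarith
    · rw [if_neg hXX]
      push Not at hXX
      have hXX0 : X0 ≤ X := le_trans (le_max_left _ _) hXX.le
      have h1 := hX0 X hXX0 (cc q) (Phi h H q r) (Phi_abs h H q r) (Phi_loc h H q r hH)
      have h2 : ∑ i ∈ range I, (if B (X / Q i) then w i else 0) ≤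
          ∑ i ∈ range I, (if δ * X < QAG (Phi h H q r) X (Q i) (cc q) then
            1 / Real.log (Q i) else 0) := by
        refine Finset.sum_le_sum fun i hi => ?_
        by_cases hBi : B (X / Q i)
        · have hXi : X2 i ≤ X :=
            le_trans (le_trans (Finset.le_sup hi) (le_max_right _ _)) hXX.le
          have h3 : (ex h H q r t (X / Q i) : ℝ) * (Q i) ≤ δ * X := by
            have h4 : (ex h H q r t (X / Q i) : ℝ) ≤ δ * ((X / Q i : ℕ) : ℝ) := hBi
            have h5 : ((X / Q i : ℕ) : ℝ) * (Q i) ≤ X := by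
              exact_mod_cast Nat.div_mul_le_self X (Q i)
            calc (ex h H q r t (X / Q i) : ℝ) * (Q i) ≤ δ * ((X / Q i : ℕ) : ℝ) * (Q i) :=
                  mul_le_mul_of_nonneg_right h4 (Nat.cast_nonneg _)
              _ = δ * (((X / Q i : ℕ) : ℝ) * (Q i)) := by ring
              _ ≤ δ * X := mul_le_mul_of_nonneg_left h5 hδ.le
          have h6 := hX2 i X hXi r hr t h3
          rw [if_pos hBi, if_pos h6]
        · rw [if_neg hBi]
          split_ifs
          · exact (hw0 i).le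
          · exact le_rfl
      linarith
  -- double counting
  set L : ℝ := ∑ M ∈ Ioc (N / K) N, (if B M then 1 / (M : ℝ) else 0) with hL
  set U := Ioc (N / K) (R * (N + 1)) with hU
  have hmain : S * L ≤ 2 * (C * (Real.log (4 * R) + Real.log K) + S * a) := by
    calc S * L = ∑ i ∈ range I, w i * L := by rw [hS, Finset.sum_mul]
      _ ≤ ∑ i ∈ range I, w i * (2 * ∑ X ∈ U, (if B (X / Q i) then 1 / (X : ℝ) else 0)) := by
          refine Finset.sum_le_sum fun i hi => ?_
          exact mul_le_mul_of_nonneg_left (pull (Q i) N K R (hQ1 i) (hQR i hi) B) (hw0 i).le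
      _ = 2 * ∑ X ∈ U, (1 / (X : ℝ)) * ∑ i ∈ range I, (if B (X / Q i) then w i else 0) := by
          have e1 : ∀ i ∈ range I, w i * (2 * ∑ X ∈ U, (if B (X / Q i) then 1 / (X : ℝ) else 0)) =
              ∑ X ∈ U, 2 * ((1 / (X : ℝ)) * (if B (X / Q i) then w i else 0)) := by
            intro i _
            rw [Finset.mul_sum, Finset.mul_sum]
            refine Finset.sum_congr rfl fun X _ => ?_
            split_ifs <;> ring
          rw [Finset.sum_congr rfl e1, Finset.sum_comm, Finset.mul_sum]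
          refine Finset.sum_congr rfl fun X _ => ?_
          rw [← Finset.mul_sum, ← Finset.mul_sum]
      _ ≤ 2 * ∑ X ∈ U, (1 / (X : ℝ)) * (C + S * (if X ≤ X1 then 1 else 0)) := by
          refine mul_le_mul_of_nonneg_left (Finset.sum_le_sum fun X hXU => ?_) (by norm_num)
          refine mul_le_mul_of_nonneg_left (hX X ?_) (by positivity)
          exact Nat.succ_le_of_lt (lt_of_le_of_lt (Nat.zero_le _) (Finset.mem_Ioc.1 hXU).1)
      _ = 2 * (C * ∑ X ∈ U, (1 / (X : ℝ)) +
            S * ∑ X ∈ U.filter (fun X => X ≤ X1), (1 / (X : ℝ))) := by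
          congr 1
          rw [Finset.sum_filter, Finset.mul_sum, Finset.mul_sum, ← Finset.sum_add_distrib]
          refine Finset.sum_congr rfl fun X _ => ?_
          split_ifs <;> ring
      _ ≤ 2 * (C * (Real.log (4 * R) + Real.log K) + S * a) := by
          have h1 := MRU.window_mass hK1 hKN hR1
          have h2 : ∑ X ∈ U.filter (fun X => X ≤ X1), (1 / (X : ℝ)) ≤ a := by
            rw [ha]
            refine Finset.sum_le_sum_of_subset_of_nonneg ?_ fun X _ _ => by positivity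
            intro X hXU
            rw [Finset.mem_filter, hU, Finset.mem_Ioc] at hXU
            rw [Finset.mem_Icc]
            exact ⟨Nat.succ_le_of_lt (lt_of_le_of_lt (Nat.zero_le _) hXU.1.1), hXU.2⟩
          have h3 := mul_le_mul_of_nonneg_left h1 hC.le
          have h4 := mul_le_mul_of_nonneg_left h2 hSpos.le
          linarith
  have hlogR : Real.log (4 * R) ≤ Real.log K := Real.log_le_log (by linarith) hKR.1
  have hloga : 4 * a / ε ≤ Real.log K := (Real.le_log_iff_exp_le hKpos).2 hKR.2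
  have hloga' : 4 * a ≤ ε * Real.log K := by
    rw [div_le_iff₀ hε] at hloga
    linarith
  have hlogK : 0 ≤ Real.log K := by
    have : 0 ≤ 4 * a / ε := by positivity
    linarith
  have hSC : 8 * C ≤ ε * S := by
    have h1 : 8 * C / ε ≤ S := by linarith
    rw [div_le_iff₀ hε] at h1
    linarith
  have hfin : S * L ≤ S * (ε * Real.log K) := by
    have h1 : C * (Real.log (4 * R) + Real.log K) ≤ C * (2 * Real.log K) :=
      mul_le_mul_of_nonneg_left (by linarith) hC.le
    have h2 : 4 * (C * Real.log K) ≤ (ε * S) * Real.log K / 2 := by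
      have := mul_le_mul_of_nonneg_right hSC hlogK
      linarith
    have h3 : 2 * (S * a) ≤ S * (ε * Real.log K) / 2 := by
      have := mul_le_mul_of_nonneg_left hloga' hSpos.le
      linarith
    linarith
  exact le_of_mul_le_mul_left hfin hSpos

end UGU66
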