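import Pool.Agent.Helper72.UGE.Final
import Pool.Agent.Helper66.UGU.Window

/-!
# Project UG, constants independent of the modulus: one shift and the final form

As `UGE/Final.lean`, with `δ` independent of `q`: the case of one shift from `UGD.mr_shift`, the case of two or more shifts from `window_of`.
-/

set_option autoImplicit false

namespace UGU66

open Finset MRP UGD UGA UGE

private theorem zmod2' (x y : ZMod 2) (t : ZMod 2) (h : x ≠ y) : x ≠ t ∨ y ≠ t := by
  revert x y t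
  decide

/-- One shift, every scale, with an absolute constant. -/
theorem one_shift (q : ℕ) (hq : 0 < q) (b : ℕ) : ∃ M₀ : ℕ, ∀ M : ℕ, M₀ ≤ M →
    ∀ r < q, ∀ t : ZMod 2, 1 / 16 * ((M : ℝ) / q) < (exB {b} q r t M : ℝ) := by
  classical
  have hqR : (0 : ℝ) < q := by exact_mod_cast hq
  obtain ⟨S₀, hS1, hmr⟩ := mr_shift q hq (1 / (4 * q)) (by positivity)
  obtain ⟨M₁, hM₁⟩ := hmr S₀ le_rfl
  obtain ⟨M₂, hM₂⟩ := exists_nat_gt ((q : ℝ) * (4 * (2 + 2 * (b + q * S₀))))
  refine ⟨max M₁ M₂, fun M hM r hr t => ?_⟩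
  by_contra hcon
  push Not at hcon
  set E := (Icc 1 M).filter (fun n => n % q = r ∧ ∑ b' ∈ ({b} : Finset ℕ), gg (n + b') ≠ t) with hE
  have hE' : (exB {b} q r t M : ℝ) = (E.card : ℝ) := rfl
  rw [hE'] at hcon
  set κ : ℕ := (r + b) % q with hκ
  have hκq : κ < q := Nat.mod_lt _ hq
  have hfew : ∀ s : ℕ, 1 ≤ s → s ≤ S₀ → (((Icc 1 M).filter
      (fun n => n % q = κ ∧ gg n ≠ gg (n + q * s))).card : ℝ) ≤
        2 * (E.card : ℝ) + (b + q * S₀) := by
    intro s _ hs
    have hsub : (Icc 1 M).filter (fun n => n % q = κ ∧ gg n ≠ gg (n + q * s)) ⊆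
        ((Icc 1 b ∪ E.image (fun n => n + b)) ∪ E.image (fun n => n + b - q * s)) ∪
        (Ioc M (M + q * s)).image (fun n => n - q * s) := by
      intro n hn
      rw [Finset.mem_filter, Finset.mem_Icc] at hn
      obtain ⟨⟨hn1, hnM⟩, hnr, hgg⟩ := hn
      by_cases hnb : n ≤ b
      · simp only [Finset.mem_union, Finset.mem_Icc]
        exact Or.inl (Or.inl (Or.inl ⟨hn1, hnb⟩))
      push Not at hnb
      have hcls : (n - b) % q = r := by
        have e1 : n ≡ r + b [MOD q] := by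
          show n % q = (r + b) % q
          rw [hnr]
        have e2 : (n - b) + b ≡ r + b [MOD q] := by
          rw [Nat.sub_add_cancel hnb.le]; exact e1
        have e3 : n - b ≡ r [MOD q] := Nat.ModEq.add_right_cancel' b e2
        have e4 : (n - b) % q = r % q := e3
        rw [e4, Nat.mod_eq_of_lt hr]
      have hcls2 : (n + q * s - b) % q = r := by
        have : n + q * s - b = (n - b) + q * s := by omega
        rw [this, Nat.add_mul_mod_self_left, hcls]
      rcases zmod2' _ _ t hgg with h2 | h2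
      · have : n - b ∈ E := by
          rw [hE, Finset.mem_filter, Finset.mem_Icc, Finset.sum_singleton]
          refine ⟨⟨by omega, by omega⟩, hcls, ?_⟩
          rw [Nat.sub_add_cancel hnb.le]
          exact h2
        simp only [Finset.mem_union, Finset.mem_image]
        exact Or.inl (Or.inl (Or.inr ⟨n - b, this, by omega⟩))
      · by_cases hnM' : n + q * s - b ≤ M
        · have : n + q * s - b ∈ E := by
            rw [hE, Finset.mem_filter, Finset.mem_Icc, Finset.sum_singleton]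
            refine ⟨⟨by omega, hnM'⟩, hcls2, ?_⟩
            have e5 : n + q * s - b + b = n + q * s := by omega
            rw [e5]
            exact h2
          simp only [Finset.mem_union, Finset.mem_image]
          exact Or.inl (Or.inr ⟨n + q * s - b, this, by omega⟩)
        · simp only [Finset.mem_union, Finset.mem_image, Finset.mem_Ioc]
          exact Or.inr ⟨n + q * s, ⟨by omega, by omega⟩, by omega⟩
    have hcard := Finset.card_le_card hsub
    have hc1 : (((Icc 1 b ∪ E.image (fun n => n + b)) ∪ E.image (fun n => n + b - q * s)) ∪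
        (Ioc M (M + q * s)).image (fun n => n - q * s)).card ≤ ((b + E.card) + E.card) + q * s := by
      refine (Finset.card_union_le _ _).trans (Nat.add_le_add ((Finset.card_union_le _ _).trans
        (Nat.add_le_add ((Finset.card_union_le _ _).trans (Nat.add_le_add (by simp) Finset.card_image_le))
          Finset.card_image_le)) (Finset.card_image_le.trans (by simp)))
    have hc3 : q * s ≤ q * S₀ := Nat.mul_le_mul_left _ hs
    have hc2 : ((Icc 1 M).filter (fun n => n % q = κ ∧ gg n ≠ gg (n + q * s))).card ≤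
        2 * E.card + (b + q * S₀) := by omega
    exact_mod_cast hc2
  have h1 := large_of_few q q κ S₀ M hq hκq _ hfew
  have h2 := hM₁ M (le_trans (le_max_left _ _) hM)
  have h3 := h1.trans h2
  have hS : (0 : ℝ) < S₀ := by exact_mod_cast hS1
  have h4 : (M : ℝ) / q - 2 - 2 * (2 * (E.card : ℝ) + (b + q * S₀)) ≤ 1 / (4 * q) * M := by
    have h5 : (S₀ : ℝ) * ((M : ℝ) / q - 2 - 2 * (2 * (E.card : ℝ) + (b + q * S₀))) ≤
        S₀ * (1 / (4 * q) * M) := by
      calc (S₀ : ℝ) * ((M : ℝ) / q - 2 - 2 * (2 * (E.card : ℝ) + (b + q * S₀)))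
          ≤ 1 / (4 * q) * S₀ * M := h3
        _ = S₀ * (1 / (4 * q) * M) := by ring
    exact le_of_mul_le_mul_left h5 hS
  have h7 : (1 / (4 * q) * M : ℝ) = (M : ℝ) / q / 4 := by
    field_simp
  rw [h7] at h4
  have h8 : ((q : ℝ) * (4 * (2 + 2 * (b + q * S₀)))) < M := by
    refine hM₂.trans_le ?_
    exact_mod_cast le_trans (le_max_right _ _) hM
  have h9 : 4 * (2 + 2 * ((b : ℝ) + q * S₀)) < (M : ℝ) / q := by
    rw [lt_div_iff₀ hqR]
    linarith
  linarith

/-- The gap at almost all scales, for each class and sign, with `δ` independent of `q`. -/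
theorem winB_of (l : ℕ) (hl : 1 ≤ l)
    (hw : ∀ d : ℕ, 1 ≤ d → ∃ δ : ℝ, 0 < δ ∧ ∀ (q : ℕ) [NeZero q],
      ∀ (h : Fin d → ℕ) (H : ℕ), (∀ i, h i < H) → ∀ r < q, ∀ t : ZMod 2, ∀ ε : ℝ, 0 < ε →
      ∃ K₀ : ℕ, ∀ N K : ℕ, K₀ ≤ K → K ≤ N →
        ∑ M ∈ Ioc (N / K) N, (if (ex h H q r t M : ℝ) ≤ δ * ((M : ℝ) / q) then 1 / (M : ℝ) else 0) ≤
          ε * Real.log K) : ∃ δ : ℝ, 0 < δ ∧ ∀ q : ℕ, 0 < q →
    ∀ B : Finset ℕ, B.card = l → ∀ r < q, ∀ t : ZMod 2, ∀ ε : ℝ, 0 < ε →
      ∃ K₀ : ℕ, ∀ N K : ℕ, K₀ ≤ K → K ≤ N →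
        ∑ M ∈ Ioc (N / K) N, (if (exB B q r t M : ℝ) ≤ δ * ((M : ℝ) / q) then 1 / (M : ℝ) else 0) ≤
          ε * Real.log K := by
  classical
  obtain ⟨d, rfl⟩ : ∃ d, l = d + 1 := ⟨l - 1, by omega⟩
  rcases Nat.eq_zero_or_pos d with hd | hd
  · subst hd
    refine ⟨1 / 16, by norm_num, fun q hq B hB r hr t ε hε => ?_⟩
    obtain ⟨b, rfl⟩ := Finset.card_eq_one.1 hB
    obtain ⟨M₀, hM₀⟩ := one_shift q hq b
    set a : ℝ := ∑ M ∈ Icc 1 M₀, 1 / (M : ℝ) with ha
    obtain ⟨K₀, hK₀⟩ := exists_nat_gt (Real.exp (a / ε))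
    refine ⟨K₀, fun N K hK hKN => ?_⟩
    have hK' : Real.exp (a / ε) ≤ K := by
      have : (K₀ : ℝ) ≤ K := by exact_mod_cast hK
      linarith
    have hKpos : (0 : ℝ) < K := lt_of_lt_of_le (Real.exp_pos _) hK'
    have hlog : a ≤ ε * Real.log K := by
      have h2 := (Real.le_log_iff_exp_le hKpos).2 hK'
      rw [div_le_iff₀ hε] at h2
      linarith
    refine le_trans ?_ hlog
    rw [ha, ← Finset.sum_filter]
    refine Finset.sum_le_sum_of_subset_of_nonneg ?_ fun M _ _ => by positivity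
    intro M hM
    rw [Finset.mem_filter, Finset.mem_Ioc] at hM
    rw [Finset.mem_Icc]
    refine ⟨Nat.succ_le_of_lt (lt_of_le_of_lt (Nat.zero_le _) hM.1.1), ?_⟩
    by_contra hcon
    push Not at hcon
    have := hM₀ M hcon.le r hr t
    linarith [hM.2]
  · obtain ⟨δ, hδ, hw⟩ := hw d hd
    refine ⟨δ, hδ, fun q hq B hB r hr t ε hε => ?_⟩
    have _ : NeZero q := ⟨hq.ne'⟩
    obtain ⟨h, H, hH, hff⟩ := exists_shifts B d hB
    obtain ⟨K₀, hK₀⟩ := hw q h H hH r hr t ε hε
    refine ⟨K₀, fun N K hK hKN => ?_⟩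
    have h1 : ∀ M, exB B q r t M = ex h H q r t M := by
      intro M
      unfold exB ex
      congr 1
      refine Finset.filter_congr fun n _ => ?_
      rw [hff]
    simp only [h1]
    exact hK₀ N K hK hKN

/-- **The uniform gap**, `δ` independent of the modulus. -/
theorem uniform_gap_of (l : ℕ) (hwB : ∃ δ : ℝ, 0 < δ ∧ ∀ q : ℕ, 0 < q →
    ∀ B : Finset ℕ, B.card = l → ∀ r < q, ∀ t : ZMod 2, ∀ ε : ℝ, 0 < ε →
      ∃ K₀ : ℕ, ∀ N K : ℕ, K₀ ≤ K → K ≤ N →
        ∑ M ∈ Ioc (N / K) N, (if (exB B q r t M : ℝ) ≤ δ * ((M : ℝ) / q) then 1 / (M : ℝ) else 0) ≤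
          ε * Real.log K) : ∃ δ : ℝ, 0 < δ ∧ δ < 1 ∧ ∀ q : ℕ, 0 < q →
    ∀ B : Finset ℕ, B.card = l → ∀ ε : ℝ, 0 < ε → ∃ K₀ : ℕ, ∀ N K : ℕ, K₀ ≤ K → K ≤ N →
      ∑ M ∈ (Ioc (N / K) N).filter (fun M : ℕ => ∃ r < q, (1 - δ) * ((M : ℝ) / q) <
        |∑ n ∈ (Icc 1 M).filter (fun n => n % q = r),
          ∏ b ∈ B, (-1 : ℝ) ^ (ArithmeticFunction.cardFactors (n + b))|), 1 / (M : ℝ) ≤
        ε * Real.log K := by
  classical
  obtain ⟨δ', hδ', hw⟩ := hwB
  refine ⟨min δ' (1 / 2), lt_min hδ' (by norm_num), lt_of_le_of_lt (min_le_right _ _) (by norm_num),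
    fun q hq B hB ε hε => ?_⟩
  have hqR : (0 : ℝ) < q := by exact_mod_cast hq
  have hw' := fun (r : ℕ) (t : ZMod 2) => fun hr : r < q => hw q hq B hB r hr t (ε / (4 * q)) (by positivity)
  choose! K₁ hK₁ using hw'
  obtain ⟨M₁, hM₁⟩ := exists_nat_gt (q / δ')
  set a : ℝ := ∑ M ∈ Icc 1 M₁, 1 / (M : ℝ) with ha
  have ha0 : 0 ≤ a := Finset.sum_nonneg fun M _ => by positivity
  obtain ⟨K₂, hK₂⟩ := exists_nat_gt (Real.exp (2 * a / ε))
  refine ⟨max K₂ ((range q).sup fun r => (Finset.univ : Finset (ZMod 2)).sup fun t => K₁ r t),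
    fun N K hK hKN => ?_⟩
  have hK2 : Real.exp (2 * a / ε) ≤ K := by
    have : (K₂ : ℝ) ≤ K := by exact_mod_cast le_trans (le_max_left _ _) hK
    linarith
  have hK1 : ∀ r < q, ∀ t, K₁ r t ≤ K := by
    intro r hr t
    refine le_trans ?_ (le_trans (le_max_right _ _) hK)
    refine le_trans ?_ (Finset.le_sup (f := fun r => (Finset.univ : Finset (ZMod 2)).sup fun t => K₁ r t)
      (Finset.mem_range.2 hr))
    exact Finset.le_sup (f := fun t => K₁ r t) (Finset.mem_univ t)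
  have hKpos : (0 : ℝ) < K := lt_of_lt_of_le (Real.exp_pos _) hK2
  have hlog : 2 * a ≤ ε * Real.log K := by
    have h2 := (Real.le_log_iff_exp_le hKpos).2 hK2
    rw [div_le_iff₀ hε] at h2
    linarith
  -- pointwise
  have hpt : ∀ M ∈ Ioc (N / K) N, (if ∃ r < q, (1 - min δ' (1 / 2)) * ((M : ℝ) / q) <
        |∑ n ∈ (Icc 1 M).filter (fun n => n % q = r),
          ∏ b ∈ B, (-1 : ℝ) ^ (ArithmeticFunction.cardFactors (n + b))| then 1 / (M : ℝ) else 0) ≤
      (∑ r ∈ range q, ∑ t : ZMod 2, (if (exB B q r t M : ℝ) ≤ δ' * ((M : ℝ) / q) then 1 / (M : ℝ) else 0)) +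
        (if M ≤ M₁ then 1 / (M : ℝ) else 0) := by
    intro M hM
    have hM0 : 1 ≤ M := Nat.succ_le_of_lt (lt_of_le_of_lt (Nat.zero_le _) (Finset.mem_Ioc.1 hM).1)
    have hMR : (0 : ℝ) < M := by exact_mod_cast hM0
    have hterm : ∀ r t, 0 ≤ (if (exB B q r t M : ℝ) ≤ δ' * ((M : ℝ) / q) then 1 / (M : ℝ) else 0) := by
      intro r t
      split_ifs
      · positivity
      · exact le_rfl
    have hsum0 : 0 ≤ ∑ r ∈ range q, ∑ t : ZMod 2,
        (if (exB B q r t M : ℝ) ≤ δ' * ((M : ℝ) / q) then 1 / (M : ℝ) else 0) :=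
      Finset.sum_nonneg fun r _ => Finset.sum_nonneg fun t _ => hterm r t
    have hsm : 0 ≤ (if M ≤ M₁ then 1 / (M : ℝ) else 0) := by
      split_ifs
      · positivity
      · exact le_rfl
    split_ifs with hex hMM hMM
    · linarith
    · rw [add_zero]
      push Not at hMM
      obtain ⟨r, hr, hc⟩ := hex
      have hδM : 1 ≤ δ' * ((M : ℝ) / q) := by
        have h1 : (M₁ : ℝ) ≤ M := by exact_mod_cast hMM.le
        have h2 : q / δ' < M := hM₁.trans_le h1
        rw [div_lt_iff₀ hδ'] at h2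
        rw [← mul_div_assoc, le_div_iff₀ hqR]
        linarith
      have hcl := card_class_le M q r hq
      have hmin : min δ' (1 / 2) * ((M : ℝ) / q) ≤ δ' * ((M : ℝ) / q) :=
        mul_le_mul_of_nonneg_right (min_le_left _ _) (by positivity)
      obtain ⟨t, ht⟩ : ∃ t : ZMod 2, (exB B q r t M : ℝ) ≤ δ' * ((M : ℝ) / q) := by
        rcases le_or_gt 0 (∑ n ∈ (Icc 1 M).filter (fun n => n % q = r),
          ∏ b ∈ B, (-1 : ℝ) ^ (ArithmeticFunction.cardFactors (n + b))) with h0 | h0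
        · refine ⟨0, ?_⟩
          rw [abs_of_nonneg h0, corr_eq B q r M 0] at hc
          have : sg 0 = 1 := by simp [sg]
          rw [this, one_mul] at hc
          linarith
        · refine ⟨1, ?_⟩
          rw [abs_of_neg h0, corr_eq B q r M 1] at hc
          have : sg 1 = -1 := by
            unfold sg
            rw [if_neg (by decide)]
          rw [this] at hc
          linarith
      have h3 : (if (exB B q r t M : ℝ) ≤ δ' * ((M : ℝ) / q) then 1 / (M : ℝ) else 0) ≤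
          ∑ t : ZMod 2, (if (exB B q r t M : ℝ) ≤ δ' * ((M : ℝ) / q) then 1 / (M : ℝ) else 0) :=
        Finset.single_le_sum (f := fun t => if (exB B q r t M : ℝ) ≤ δ' * ((M : ℝ) / q) then 1 / (M : ℝ) else 0)
          (fun t _ => hterm r t) (Finset.mem_univ t)
      have h4 : ∑ t : ZMod 2, (if (exB B q r t M : ℝ) ≤ δ' * ((M : ℝ) / q) then 1 / (M : ℝ) else 0) ≤
          ∑ r ∈ range q, ∑ t : ZMod 2,
            (if (exB B q r t M : ℝ) ≤ δ' * ((M : ℝ) / q) then 1 / (M : ℝ) else 0) :=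
        Finset.single_le_sum (f := fun r => ∑ t : ZMod 2,
            (if (exB B q r t M : ℝ) ≤ δ' * ((M : ℝ) / q) then 1 / (M : ℝ) else 0))
          (fun r _ => Finset.sum_nonneg fun t _ => hterm r t) (Finset.mem_range.2 hr)
      rw [if_pos ht] at h3
      linarith
    · have : 0 ≤ 1 / (M : ℝ) := by positivity
      linarith
    · linarith
  rw [Finset.sum_filter]
  calc ∑ M ∈ Ioc (N / K) N, (if ∃ r < q, (1 - min δ' (1 / 2)) * ((M : ℝ) / q) <
        |∑ n ∈ (Icc 1 M).filter (fun n => n % q = r),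
          ∏ b ∈ B, (-1 : ℝ) ^ (ArithmeticFunction.cardFactors (n + b))| then 1 / (M : ℝ) else 0)
      ≤ ∑ M ∈ Ioc (N / K) N, ((∑ r ∈ range q, ∑ t : ZMod 2,
          (if (exB B q r t M : ℝ) ≤ δ' * ((M : ℝ) / q) then 1 / (M : ℝ) else 0)) +
        (if M ≤ M₁ then 1 / (M : ℝ) else 0)) := Finset.sum_le_sum hpt
    _ = (∑ r ∈ range q, ∑ t : ZMod 2, ∑ M ∈ Ioc (N / K) N,
          (if (exB B q r t M : ℝ) ≤ δ' * ((M : ℝ) / q) then 1 / (M : ℝ) else 0)) +
        ∑ M ∈ Ioc (N / K) N, (if M ≤ M₁ then 1 / (M : ℝ) else 0) := by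
        rw [Finset.sum_add_distrib, Finset.sum_comm]
        congr 1
        refine Finset.sum_congr rfl fun r _ => ?_
        rw [Finset.sum_comm]
    _ ≤ (∑ r ∈ range q, ∑ _t : ZMod 2, ε / (4 * q) * Real.log K) + a := by
        refine add_le_add (Finset.sum_le_sum fun r hr => Finset.sum_le_sum fun t _ => ?_) ?_
        · have hr' := Finset.mem_range.1 hr
          exact hK₁ r t hr' N K (hK1 r hr' t) hKN
        · rw [ha, ← Finset.sum_filter]
          refine Finset.sum_le_sum_of_subset_of_nonneg ?_ fun M _ _ => by positivity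
          intro M hM
          rw [Finset.mem_filter, Finset.mem_Ioc] at hM
          rw [Finset.mem_Icc]
          exact ⟨Nat.succ_le_of_lt (lt_of_le_of_lt (Nat.zero_le _) hM.1.1), hM.2⟩
    _ ≤ ε * Real.log K := by
        rw [Finset.sum_const, Finset.card_range, Finset.sum_const, Finset.card_univ, ZMod.card,
          nsmul_eq_mul, nsmul_eq_mul]
        have h1 : (q : ℝ) * (((2 : ℕ) : ℝ) * (ε / (4 * q) * Real.log K)) = ε * Real.log K / 2 := by
          push_cast
          field_simp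
          ring
        rw [h1]
        linarith

end UGU66
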